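import Mathlib

/-!
# Binary words up to 2-abelian equivalence: pair counts and morphic images
-/

set_option autoImplicit false

namespace Pool.Agent.K7.H95.PM

/-- sum of `f a b` over all pairs `a b` of consecutive letters of a word -/
def jn {σ : Type*} (f : σ → σ → ℕ) : List σ → ℕ
  | [] => 0
  | [_] => 0
  | a :: b :: l => f a b + jn f (b :: l)

/-- the number of occurrences of the two-letter word `pq` -/
def pc (p q : Bool) (u : List Bool) : ℕ := jn (fun a b => if a = p ∧ b = q then 1 else 0) u

@[simp] lemma jn_nil {σ : Type*} (f : σ → σ → ℕ) : jn f [] = 0 := rfl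
@[simp] lemma jn_single {σ : Type*} (f : σ → σ → ℕ) (a : σ) : jn f [a] = 0 := rfl
@[simp] lemma jn_cons_cons {σ : Type*} (f : σ → σ → ℕ) (a b : σ) (l : List σ) :
    jn f (a :: b :: l) = f a b + jn f (b :: l) := rfl

lemma pc_nil (p q : Bool) : pc p q [] = 0 := rfl

lemma pc_append (p q : Bool) (u v : List Bool) :
    pc p q (u ++ v) = pc p q u + pc p q v +
      (if u.getLast? = some p ∧ v.head? = some q then 1 else 0) := by
  induction u with
  | nil => simp [pc]
  | cons a u ih =>
    cases u with
    | nil =>
      cases v with
      | nil => simp [pc]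
      | cons b v =>
        simp only [List.cons_append, List.nil_append, pc, jn_cons_cons, jn_single,
          List.getLast?_singleton, List.head?_cons, Option.some.injEq]
        omega
    | cons a' u =>
      have h1 : pc p q (a :: a' :: u ++ v)
          = (if a = p ∧ a' = q then 1 else 0) + pc p q (a' :: u ++ v) := rfl
      have h2 : pc p q (a :: a' :: u)
          = (if a = p ∧ a' = q then 1 else 0) + pc p q (a' :: u) := rfl
      rw [h1, h2, ih, List.getLast?_cons_cons]
      omega

/-- pair counts of a morphic image -/
lemma pc_flatMap {σ : Type*} (θ : σ → List Bool) (hθ : ∀ s, θ s ≠ []) (p q : Bool)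
    (B : List σ) :
    pc p q (B.flatMap θ) = (B.map fun s => pc p q (θ s)).sum +
      jn (fun s s' => if (θ s).getLast? = some p ∧ (θ s').head? = some q then 1 else 0) B := by
  induction B with
  | nil => simp [pc]
  | cons a B ih =>
    cases B with
    | nil => simp
    | cons b B =>
      have hb : ((b :: B).flatMap θ).head? = (θ b).head? := by
        obtain ⟨c, t, ht⟩ := List.exists_cons_of_ne_nil (hθ b)
        rw [List.flatMap_cons, ht]; rfl
      rw [List.flatMap_cons, pc_append, ih, hb, jn_cons_cons]
      simp only [List.map_cons, List.sum_cons]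
      omega

/-- 2-abelian equivalence in terms of letters and pair counts -/
def E2 (u v : List Bool) : Prop := u.Perm v ∧ ∀ p q, pc p q u = pc p q v

/-- a language with a factor which is a 2-abelian cube -/
def HasCube (L : List Bool → Prop) : Prop :=
  ∃ u v w, L (u ++ v ++ w) ∧ u ≠ [] ∧ E2 u v ∧ E2 v w

lemma flatMap_E2 {σ : Type*} (θ : σ → List Bool) (hθ : ∀ s, θ s ≠ []) {B B' : List σ}
    (hp : B.Perm B')
    (hj : ∀ p q, jn (fun s s' => if (θ s).getLast? = some p ∧ (θ s').head? = some q
        then 1 else 0) B
      = jn (fun s s' => if (θ s).getLast? = some p ∧ (θ s').head? = some q then 1 else 0) B') :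
    E2 (B.flatMap θ) (B'.flatMap θ) := by
  refine ⟨hp.flatMap_right θ, fun p q => ?_⟩
  rw [pc_flatMap θ hθ, pc_flatMap θ hθ, hj p q, (hp.map _).sum_eq]

lemma jn_right {σ : Type*} (F : σ → ℕ) (a : σ) (l : List σ) :
    jn (fun _ s' => F s') (a :: l) = (l.map F).sum := by
  induction l generalizing a with
  | nil => simp
  | cons b l ih => rw [jn_cons_cons, ih, List.map_cons, List.sum_cons]

lemma jn_left {σ : Type*} (F : σ → ℕ) (a : σ) (l : List σ) :
    jn (fun s _ => F s) (l ++ [a]) = (l.map F).sum := by
  induction l with
  | nil => simp
  | cons b l ih =>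
    cases l with
    | nil => simp
    | cons c l =>
      rw [List.map_cons, List.sum_cons, ← ih]
      rfl

/-- If all images of letters end with the same letter, an abelian equivalence between words with
the same first letter gives a 2-abelian equivalence of the images. -/
lemma E2_of_head (h : Bool → List Bool) (hne : ∀ c, h c ≠ []) (e : Bool)
    (he : ∀ c, (h c).getLast? = some e) {a : Bool} {u v : List Bool}
    (hp : u.Perm v) : E2 ((a :: u).flatMap h) ((a :: v).flatMap h) := by
  refine flatMap_E2 h hne (hp.cons a) fun p q => ?_
  have key : ∀ w : List Bool,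
      jn (fun s s' => if (h s).getLast? = some p ∧ (h s').head? = some q then 1 else 0) (a :: w)
        = (w.map fun s' => if e = p ∧ (h s').head? = some q then 1 else 0).sum := by
    intro w
    rw [← jn_right _ a w]
    congr 1
    funext s s'
    rw [he s]
    simp
  rw [key, key, (hp.map _).sum_eq]

/-- If all images of letters begin with the same letter, an abelian equivalence between words with
the same last letter gives a 2-abelian equivalence of the images. -/
lemma E2_of_last (h : Bool → List Bool) (hne : ∀ c, h c ≠ []) (e : Bool)
    (he : ∀ c, (h c).head? = some e) {a : Bool} {u v : List Bool}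
    (hp : u.Perm v) : E2 ((u ++ [a]).flatMap h) ((v ++ [a]).flatMap h) := by
  refine flatMap_E2 h hne (hp.append_right [a]) fun p q => ?_
  have key : ∀ w : List Bool,
      jn (fun s s' => if (h s).getLast? = some p ∧ (h s').head? = some q then 1 else 0) (w ++ [a])
        = (w.map fun s => if (h s).getLast? = some p ∧ e = q then 1 else 0).sum := by
    intro w
    rw [← jn_left _ a w]
    congr 1
    funext s s'
    rw [he s']
    simp
  rw [key, key, (hp.map _).sum_eq]

end Pool.Agent.K7.H95.PM
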