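import Pool.Agent.K7.H95.PM.Base

/-!
# Every binary word with 37 letters has an abelian cube whose three blocks begin with the same letter
-/

set_option autoImplicit false

namespace Pool.Agent.K7.H95.PM

/-- a word with the numbers of letters `true` in its suffixes -/
def enc : List Bool → List (Bool × ℕ)
  | [] => [(false, 0)]
  | b :: r => (b, (b :: r).count true) :: enc r

/-- one more letter in front -/
def ext (b : Bool) : List (Bool × ℕ) → List (Bool × ℕ)
  | [] => []
  | (c, t) :: E => (b, cond b (t + 1) t) :: (c, t) :: E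

/-- the check of one period -/
def test (b0 : Bool) (t0 : ℕ) (e1 e2 e3 : Bool × ℕ) : Bool :=
  cond (Nat.beq (t0 + e2.2) (e1.2 + e1.2))
    (cond (Nat.beq (e1.2 + e3.2) (e2.2 + e2.2))
      (cond (Bool.xor b0 e1.1) false (cond (Bool.xor e1.1 e2.1) false true)) false) false

/-- the check of all periods -/
def go (b0 : Bool) (t0 : ℕ) :
    ℕ → List (Bool × ℕ) → List (Bool × ℕ) → List (Bool × ℕ) → Bool
  | 0, _, _, _ => false
  | n + 1, E1, E2, E3 =>
    match E3 with
    | [] => false
    | e3 :: E3' =>
      match E2 with
      | [] => false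
      | e2 :: E2' =>
        match E1 with
        | [] => false
        | e1 :: E1' => cond (test b0 t0 e1 e2 e3) true (go b0 t0 n E1' E2'.tail E3'.tail.tail)

/-- does the word begin with a cube of the wanted kind? -/
def bad : List (Bool × ℕ) → Bool
  | [] => false
  | (b0, t0) :: E => go b0 t0 12 E E.tail E.tail.tail

/-- exhaustive search -/
def dfs : ℕ → List (Bool × ℕ) → Bool
  | 0, E => bad E
  | n + 1, E => cond (bad E) true (cond (dfs n (ext true E)) (dfs n (ext false E)) false)

/-- the word begins with an abelian cube whose three blocks begin with the same letter -/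
def Beg (r : List Bool) : Prop :=
  ∃ (a : Bool) (v1 v2 v3 v4 : List Bool),
    r = (a :: v1) ++ (a :: v2) ++ (a :: v3) ++ v4 ∧ v1.Perm v2 ∧ v2.Perm v3

lemma perm_of_count {u v : List Bool} (hl : u.length = v.length)
    (hc : u.count true = v.count true) : u.Perm v := by
  rw [List.perm_iff_count]
  intro b
  cases b with
  | true => exact hc
  | false =>
    have h1 := List.count_false_add_count_true u
    have h2 := List.count_false_add_count_true v
    omega

lemma enc_length (r : List Bool) : (enc r).length = r.length + 1 := by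
  induction r with
  | nil => rfl
  | cons b r ih => simp [enc, ih]

lemma enc_drop (r : List Bool) (k : ℕ) (hk : k ≤ r.length) :
    (enc r).drop k = enc (r.drop k) := by
  induction k generalizing r with
  | zero => simp
  | succ k ih =>
    cases r with
    | nil => simp at hk
    | cons b r =>
      rw [List.drop_succ_cons, ← ih r (by simpa using hk)]
      rfl

lemma enc_head {r : List Bool} {e : Bool × ℕ} {E : List (Bool × ℕ)} (h : enc r = e :: E) :
    e.2 = r.count true ∧ ∀ a s, r = a :: s → e.1 = a := by
  cases r with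
  | nil =>
    rw [enc] at h
    injection h with h1 h2
    subst h1
    exact ⟨rfl, by intro a s h; simp at h⟩
  | cons b r =>
    rw [enc] at h
    injection h with h1 h2
    subst h1
    refine ⟨rfl, ?_⟩
    intro a s h
    injection h with h1 h2

lemma ext_enc (b : Bool) (r : List Bool) : ext b (enc r) = enc (b :: r) := by
  cases r with
  | nil => cases b <;> simp [enc, ext]
  | cons c r => cases b <;> simp [enc, ext]

lemma drop_data {r : List Bool} {k : ℕ} {e : Bool × ℕ} {E : List (Bool × ℕ)}
    (h : (enc r).drop k = e :: E) :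
    k ≤ r.length ∧ e.2 = (r.drop k).count true ∧ ∀ a s, r.drop k = a :: s → e.1 = a := by
  have hk : k ≤ r.length := by
    by_contra hk
    have : (enc r).length ≤ k := by rw [enc_length]; omega
    rw [List.drop_eq_nil_of_le this] at h
    simp at h
  rw [enc_drop r k hk] at h
  exact ⟨hk, enc_head h⟩

lemma test_sound {r : List Bool} {b0 : Bool} {t0 : ℕ} {E0 E1 E2 E3 : List (Bool × ℕ)}
    {e1 e2 e3 : Bool × ℕ} {L : ℕ} (hL : 1 ≤ L)
    (h0 : enc r = (b0, t0) :: E0) (h1 : (enc r).drop L = e1 :: E1)
    (h2 : (enc r).drop (2 * L) = e2 :: E2) (h3 : (enc r).drop (3 * L) = e3 :: E3)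
    (ht : test b0 t0 e1 e2 e3 = true) : Beg r := by
  obtain ⟨c0, d0⟩ := enc_head h0
  obtain ⟨k1, c1, d1⟩ := drop_data h1
  obtain ⟨k2, c2, d2⟩ := drop_data h2
  obtain ⟨k3, c3, d3⟩ := drop_data h3
  simp only at c0 d0
  unfold test at ht
  have t1 : t0 + e2.2 = e1.2 + e1.2 := by
    by_contra hne
    have : Nat.beq (t0 + e2.2) (e1.2 + e1.2) = false := by
      rw [Bool.eq_false_iff]; intro h; exact hne (Nat.eq_of_beq_eq_true h)
    rw [this] at ht; simp at ht
  have t2 : e1.2 + e3.2 = e2.2 + e2.2 := by
    by_contra hne
    have : Nat.beq (e1.2 + e3.2) (e2.2 + e2.2) = false := by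
      rw [Bool.eq_false_iff]; intro h; exact hne (Nat.eq_of_beq_eq_true h)
    rw [this] at ht; simp at ht
  have t3 : b0 = e1.1 ∧ e1.1 = e2.1 := by
    have a1 : Nat.beq (t0 + e2.2) (e1.2 + e1.2) = true := by rw [t1]; exact Nat.beq_refl _
    have a2 : Nat.beq (e1.2 + e3.2) (e2.2 + e2.2) = true := by rw [t2]; exact Nat.beq_refl _
    rw [a1, a2] at ht
    revert ht
    cases b0 <;> cases e1.1 <;> cases e2.1 <;> simp
  -- decomposition
  set s1 := r.drop L with hs1
  set s2 := r.drop (2 * L) with hs2
  set s3 := r.drop (3 * L) with hs3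
  have e1' : s2 = s1.drop L := by rw [hs1, hs2, List.drop_drop]; congr 1; omega
  have e2' : s3 = s2.drop L := by rw [hs2, hs3, List.drop_drop]; congr 1; omega
  have f1 : r = r.take L ++ s1 := (List.take_append_drop L r).symm
  have f2 : s1 = s1.take L ++ s2 := by rw [e1']; exact (List.take_append_drop L s1).symm
  have f3 : s2 = s2.take L ++ s3 := by rw [e2']; exact (List.take_append_drop L s2).symm
  have l1 : s1.length = r.length - L := by rw [hs1, List.length_drop]
  have l2 : s2.length = r.length - 2 * L := by rw [hs2, List.length_drop]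
  have g1 : (r.take L).length = L := by rw [List.length_take]; omega
  have g2 : (s1.take L).length = L := by rw [List.length_take]; omega
  have g3 : (s2.take L).length = L := by rw [List.length_take]; omega
  have q1 : r.count true = (r.take L).count true + s1.count true := by
    conv_lhs => rw [f1]
    rw [List.count_append]
  have q2 : s1.count true = (s1.take L).count true + s2.count true := by
    conv_lhs => rw [f2]
    rw [List.count_append]
  have q3 : s2.count true = (s2.take L).count true + s3.count true := by
    conv_lhs => rw [f3]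
    rw [List.count_append]
  have p1 : (r.take L).Perm (s1.take L) := perm_of_count (by omega) (by omega)
  have p2 : (s1.take L).Perm (s2.take L) := perm_of_count (by omega) (by omega)
  obtain ⟨a1, v1, w1⟩ := List.exists_cons_of_length_pos (l := r.take L) (by omega)
  obtain ⟨a2, v2, w2⟩ := List.exists_cons_of_length_pos (l := s1.take L) (by omega)
  obtain ⟨a3, v3, w3⟩ := List.exists_cons_of_length_pos (l := s2.take L) (by omega)
  have z1 : b0 = a1 := d0 a1 (v1 ++ s1) (by conv_lhs => rw [f1, w1]
                                            rfl)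
  have z2 : e1.1 = a2 := d1 a2 (v2 ++ s2) (by conv_lhs => rw [f2, w2]
                                              rfl)
  have z3 : e2.1 = a3 := d2 a3 (v3 ++ s3) (by conv_lhs => rw [f3, w3]
                                              rfl)
  have y1 : a2 = a1 := by rw [← z1, ← z2, t3.1]
  have y2 : a3 = a1 := by rw [← z3, ← t3.2, z2, y1]
  rw [w1, w2, y1] at p1
  rw [w2, w3, y1, y2] at p2
  refine ⟨a1, v1, v2, v3, s3, ?_, p1.cons_inv, p2.cons_inv⟩
  rw [← y2, ← w3, y2, ← y1, ← w2, y1, ← w1, List.append_assoc, List.append_assoc, ← f3, ← f2, ← f1]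

lemma go_sound {r : List Bool} {b0 : Bool} {t0 : ℕ} {E0 : List (Bool × ℕ)}
    (h0 : enc r = (b0, t0) :: E0) (n : ℕ) : ∀ L, 1 ≤ L →
    go b0 t0 n ((enc r).drop L) ((enc r).drop (2 * L)) ((enc r).drop (3 * L)) = true → Beg r := by
  induction n with
  | zero => intro L _ h; simp [go] at h
  | succ n ih =>
    intro L hL h
    unfold go at h
    rcases h3 : (enc r).drop (3 * L) with _ | ⟨e3, E3⟩
    · rw [h3] at h; simp at h
    rcases h2 : (enc r).drop (2 * L) with _ | ⟨e2, E2⟩
    · rw [h3, h2] at h; simp at h
    rcases h1 : (enc r).drop L with _ | ⟨e1, E1⟩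
    · rw [h3, h2, h1] at h; simp at h
    rw [h3, h2, h1] at h
    simp only at h
    rcases ht : test b0 t0 e1 e2 e3 with _ | _
    · rw [ht] at h
      simp only [cond_false] at h
      refine ih (L + 1) (by omega) ?_
      have a1 : (enc r).drop (L + 1) = E1 := by
        rw [← List.tail_drop, h1]; rfl
      have a2 : (enc r).drop (2 * (L + 1)) = E2.tail := by
        have : 2 * (L + 1) = (2 * L + 1) + 1 := by ring
        rw [this, ← List.tail_drop, ← List.tail_drop, h2]; rfl
      have a3 : (enc r).drop (3 * (L + 1)) = E3.tail.tail := by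
        have : 3 * (L + 1) = ((3 * L + 1) + 1) + 1 := by ring
        rw [this, ← List.tail_drop, ← List.tail_drop, ← List.tail_drop, h3]; rfl
      rw [a1, a2, a3]
      exact h
    · exact test_sound hL h0 h1 h2 h3 ht

lemma bad_sound (r : List Bool) (h : bad (enc r) = true) : Beg r := by
  rcases h0 : enc r with _ | ⟨⟨b0, t0⟩, E⟩
  · rw [h0] at h; simp [bad] at h
  · rw [h0] at h
    refine go_sound h0 12 1 le_rfl ?_
    have a2 : E.drop 1 = E.tail := List.drop_one
    have a3 : E.drop 2 = E.tail.tail := by
      rw [← List.drop_one, ← List.drop_one, List.drop_drop]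
    rw [h0]
    change go b0 t0 12 E (E.drop 1) (E.drop 2) = true
    rw [a2, a3]
    exact h

lemma dfs_sound (n : ℕ) : ∀ r : List Bool, dfs n (enc r) = true →
    ∀ u : List Bool, u.length = n → ∃ s t, u ++ r = s ++ t ∧ Beg t := by
  induction n with
  | zero =>
    intro r h u hu
    rw [List.length_eq_zero_iff] at hu
    subst hu
    exact ⟨[], r, rfl, bad_sound r h⟩
  | succ n ih =>
    intro r h u hu
    unfold dfs at h
    rcases hb : bad (enc r) with _ | _
    · rw [hb] at h
      simp only [cond_false] at h
      rw [ext_enc, ext_enc] at h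
      have h1 : dfs n (enc (true :: r)) = true := by
        rcases hh : dfs n (enc (true :: r)) with _ | _
        · rw [hh] at h; simp at h
        · rfl
      have h2 : dfs n (enc (false :: r)) = true := by
        rw [h1] at h; simpa using h
      rcases List.eq_nil_or_concat u with rfl | ⟨u', b, rfl⟩
      · simp at hu
      · have hl : u'.length = n := by simpa using hu
        have h3 : dfs n (enc (b :: r)) = true := by cases b <;> assumption
        obtain ⟨s, t, e, ht⟩ := ih (b :: r) h3 u' hl
        exact ⟨s, t, by rw [← e]; simp, ht⟩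
    · exact ⟨u, r, rfl, bad_sound r hb⟩

theorem dfs_run : dfs 37 [(false, 0)] = true := by decide +kernel

/-- every word with 37 letters has an abelian cube whose blocks begin with the same letter -/
theorem exists_cube (u : List Bool) (hu : u.length = 37) :
    ∃ (a : Bool) (s v1 v2 v3 v4 : List Bool),
      u = s ++ ((a :: v1) ++ (a :: v2) ++ (a :: v3) ++ v4) ∧ v1.Perm v2 ∧ v2.Perm v3 := by
  obtain ⟨s, t, e, a, v1, v2, v3, v4, rfl, p1, p2⟩ := dfs_sound 37 [] dfs_run u hu
  exact ⟨a, s, v1, v2, v3, v4, by rw [← e]; simp, p1, p2⟩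

end Pool.Agent.K7.H95.PM
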