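import Pool.Agent.K7.H95.PM.TreeB
import Pool.Agent.K7.H95.PM.Dfs

/-!
# Languages closed under a binary morphism have 2-abelian cubes
-/

set_option autoImplicit false

namespace Pool.Agent.K7.H95.PM

lemma E2_refl (u : List Bool) : E2 u u := ⟨List.Perm.refl u, fun _ _ => rfl⟩

/-- the case of an empty image -/
lemma cube_of_erasing {L : List Bool → Prop} (hfac : ∀ u v w, L (u ++ v ++ w) → L v)
    {h : Bool → List Bool} (hH : ∀ u, L u → L (u.flatMap h)) {a : Bool} {w : List Bool}
    (ha : h a = a :: w) (hw : w.flatMap h ≠ []) (hLa : L [a]) (he : h (!a) = []) :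
    HasCube L := by
  set z := h a with hz
  have hrep : ∀ u : List Bool, u.flatMap h = (List.replicate (u.count a) z).flatten := by
    intro u
    induction u with
    | nil => rfl
    | cons b u ih =>
      rw [List.flatMap_cons, ih, List.count_cons]
      by_cases hb : b = a
      · subst hb
        simp [List.replicate_succ, hz]
      · have hb' : b = !a := by revert hb; cases b <;> cases a <;> simp
        subst hb'
        simp [he]
  have hwa : 1 ≤ w.count a := by
    by_contra hc
    have : w.count a = 0 := by omega
    rw [hrep w, this] at hw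
    exact hw rfl
  have hc2 : 2 ≤ z.count a := by
    rw [ha, List.count_cons_self]; omega
  set c := z.count a with hcdef
  have hLz : L z := by
    have := hH _ hLa
    simpa using this
  have hL2 := hH _ (hH _ hLz)
  rw [hrep z, ← hcdef, hrep] at hL2
  have hcc : ((List.replicate c z).flatten).count a = c * c := by
    rw [List.count_flatten]
    simp [← hcdef]
  rw [hcc] at hL2
  obtain ⟨m, hm⟩ : ∃ m, c * c = m + 3 := ⟨c * c - 3, by nlinarith [Nat.sub_add_cancel (show 3 ≤ c * c by nlinarith)]⟩
  rw [hm, List.replicate_succ, List.replicate_succ, List.replicate_succ] at hL2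
  refine ⟨z, z, z, ?_, by rw [ha]; simp, E2_refl z, E2_refl z⟩
  refine hfac [] _ (List.replicate m z).flatten ?_
  simpa using hL2

/-- the case of images with the same last letter -/
lemma cube_of_same_last {L : List Bool → Prop} (hfac : ∀ u v w, L (u ++ v ++ w) → L v)
    {h : Bool → List Bool} (hH : ∀ u, L u → L (u.flatMap h)) (hlong : ∃ u, L u ∧ u.length = 37)
    (hne : ∀ c, h c ≠ []) (e : Bool) (he : ∀ c, (h c).getLast? = some e) : HasCube L := by
  obtain ⟨u, hu, hl⟩ := hlong
  obtain ⟨a, s, v1, v2, v3, v4, rfl, p1, p2⟩ := exists_cube u hl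
  have h1 : L ((a :: v1) ++ (a :: v2) ++ (a :: v3)) := hfac s _ v4 (by simpa using hu)
  refine ⟨(a :: v1).flatMap h, (a :: v2).flatMap h, (a :: v3).flatMap h, ?_, ?_,
    E2_of_head h hne e he p1, E2_of_head h hne e he p2⟩
  · rw [← List.flatMap_append, ← List.flatMap_append]
    exact hH _ h1
  · rw [List.flatMap_cons]
    intro h0
    exact hne a (List.append_eq_nil_iff.1 h0).1

/-- the case of images with the same first letter -/
lemma cube_of_same_first {L : List Bool → Prop} (hfac : ∀ u v w, L (u ++ v ++ w) → L v)
    {h : Bool → List Bool} (hH : ∀ u, L u → L (u.flatMap h)) (hlong : ∃ u, L u ∧ u.length = 37)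
    (hne : ∀ c, h c ≠ []) (e : Bool) (he : ∀ c, (h c).head? = some e) : HasCube L := by
  obtain ⟨u, hu, hl⟩ := hlong
  obtain ⟨a, s, v1, v2, v3, v4, hrev, p1, p2⟩ := exists_cube u.reverse (by simpa using hl)
  have hu' : u = v4.reverse ++ ((v3.reverse ++ [a]) ++ (v2.reverse ++ [a]) ++ (v1.reverse ++ [a]))
      ++ s.reverse := by
    rw [← List.reverse_reverse u, hrev]
    simp
  have h1 : L ((v3.reverse ++ [a]) ++ (v2.reverse ++ [a]) ++ (v1.reverse ++ [a])) :=
    hfac v4.reverse _ s.reverse (by rw [← hu']; exact hu)
  have q1 : v3.reverse.Perm v2.reverse :=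
    ((List.reverse_perm v3).trans p2.symm).trans (List.reverse_perm v2).symm
  have q2 : v2.reverse.Perm v1.reverse :=
    ((List.reverse_perm v2).trans p1.symm).trans (List.reverse_perm v1).symm
  refine ⟨(v3.reverse ++ [a]).flatMap h, (v2.reverse ++ [a]).flatMap h,
    (v1.reverse ++ [a]).flatMap h, ?_, ?_,
    E2_of_last h hne e he q1, E2_of_last h hne e he q2⟩
  · rw [← List.flatMap_append, ← List.flatMap_append]
    exact hH _ h1
  · rw [List.flatMap_append, List.flatMap_cons]
    intro h0
    exact hne a (List.append_eq_nil_iff.1 (List.append_eq_nil_iff.1 h0).2).1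

/-- both two-letter words `01` and `10` occur -/
lemma pairs_or_cube {L : List Bool → Prop} (hfac : ∀ u v w, L (u ++ v ++ w) → L v)
    (hlong : ∃ u, L u ∧ u.length = 5) : HasCube L ∨ ∀ k : Bool, L [k, !k] := by
  by_cases hno : HasCube L
  · exact Or.inl hno
  refine Or.inr fun k => ?_
  obtain ⟨u, hu, hl⟩ := hlong
  obtain ⟨b0, b1, b2, b3, b4, rfl⟩ : ∃ b0 b1 b2 b3 b4, u = [b0, b1, b2, b3, b4] := by
    rcases u with _ | ⟨b0, _ | ⟨b1, _ | ⟨b2, _ | ⟨b3, _ | ⟨b4, _ | ⟨b5, u⟩⟩⟩⟩⟩⟩ <;>
      simp at hl
    exact ⟨b0, b1, b2, b3, b4, rfl⟩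
  have key : ∀ b0 b1 b2 b3 b4 k : Bool, (b0 = b1 ∧ b1 = b2) ∨ (b1 = b2 ∧ b2 = b3) ∨
      (b2 = b3 ∧ b3 = b4) ∨ (b0 = k ∧ b1 = !k) ∨ (b1 = k ∧ b2 = !k) ∨ (b2 = k ∧ b3 = !k) ∨
      (b3 = k ∧ b4 = !k) := by decide
  have cube : ∀ b : Bool, L [b, b, b] → HasCube L := fun b hb =>
    ⟨[b], [b], [b], hb, by simp, E2_refl _, E2_refl _⟩
  rcases key b0 b1 b2 b3 b4 k with ⟨rfl, rfl⟩ | ⟨rfl, rfl⟩ | ⟨rfl, rfl⟩ | ⟨rfl, rfl⟩ |
    ⟨rfl, rfl⟩ | ⟨rfl, rfl⟩ | ⟨rfl, rfl⟩
  · exact absurd (cube _ (hfac [] _ [b3, b4] hu)) hno
  · exact absurd (cube _ (hfac [b0] _ [b4] hu)) hno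
  · exact absurd (cube _ (hfac [b0, b1] _ [] hu)) hno
  · exact hfac [] _ [b2, b3, b4] hu
  · exact hfac [b0] _ [b3, b4] hu
  · exact hfac [b0, b1] _ [b4] hu
  · exact hfac [b0, b1, b2] _ [] hu

lemma form_of {u : List Bool} {c : Bool} (h1 : u.head? = some c) (h2 : u.getLast? = some c)
    {n : ℕ} (hn : n + 2 ≤ u.length) : ∃ N, u = c :: (N ++ [c]) ∧ n ≤ N.length := by
  rcases u with _ | ⟨b, u⟩
  · simp at h1
  simp only [List.head?_cons, Option.some.injEq] at h1
  subst h1
  rcases List.eq_nil_or_concat u with rfl | ⟨N, d, rfl⟩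
  · simp at hn
  rw [List.concat_eq_append] at *
  rw [← List.cons_append, List.getLast?_concat] at h2
  simp only [Option.some.injEq] at h2
  subst h2
  exact ⟨N, rfl, by simpa using hn⟩

lemma flatMap_length_le {h : Bool → List Bool} {m : ℕ} (hh : ∀ c, m ≤ (h c).length)
    (u : List Bool) : m * u.length ≤ (u.flatMap h).length := by
  induction u with
  | nil => simp
  | cons b u ih =>
    rw [List.flatMap_cons, List.length_append, List.length_cons]
    have := hh b
    nlinarith

lemma flatMap_count_le {h : Bool → List Bool} {m : ℕ} {a : Bool} (hh : m ≤ (h a).count a)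
    (u : List Bool) : m * u.count a ≤ (u.flatMap h).count a := by
  induction u with
  | nil => simp
  | cons b u ih =>
    rw [List.flatMap_cons, List.count_append]
    by_cases hb : b = a
    · subst hb
      rw [List.count_cons_self]
      nlinarith
    · rw [List.count_cons_of_ne hb]
      omega

lemma head_flatMap {h : Bool → List Bool} (hh : ∀ c, (h c).head? = some c) {u : List Bool}
    {c : Bool} (hu : u.head? = some c) : (u.flatMap h).head? = some c := by
  rcases u with _ | ⟨b, u⟩
  · simp at hu
  simp only [List.head?_cons, Option.some.injEq] at hu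
  subst hu
  rw [List.flatMap_cons]
  have := hh b
  rcases hb : h b with _ | ⟨d, t⟩
  · rw [hb] at this; simp at this
  · rw [hb] at this
    simpa using this

lemma last_flatMap {h : Bool → List Bool} {l : Bool → Bool}
    (hh : ∀ c, (h c).getLast? = some (l c)) {u : List Bool}
    {c : Bool} (hu : u.getLast? = some c) : (u.flatMap h).getLast? = some (l c) := by
  rcases List.eq_nil_or_concat u with rfl | ⟨N, d, rfl⟩
  · simp at hu
  rw [List.concat_eq_append] at *
  rw [List.getLast?_concat] at hu
  simp only [Option.some.injEq] at hu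
  subst hu
  rw [List.flatMap_append]
  have h1 : [d].flatMap h = h d := by simp
  rw [h1, List.getLast?_append, hh d]
  rfl

/-- Every language which is closed under taking factors and under a morphism `h`, which has a word
of each length, and which has a letter `a` such that `h a = a w`, where `w` and `h w` are not
empty, has a 2-abelian cube. -/
theorem lang_cube {L : List Bool → Prop} (hfac : ∀ u v w, L (u ++ v ++ w) → L v)
    {h : Bool → List Bool} (hH : ∀ u, L u → L (u.flatMap h)) (hlong : ∀ n, ∃ u, L u ∧ u.length = n)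
    {a : Bool} {w : List Bool} (ha : h a = a :: w) (hw0 : w ≠ []) (hw : w.flatMap h ≠ [])
    (hLa : L [a]) : HasCube L := by
  by_cases he : h (!a) = []
  · exact cube_of_erasing hfac hH ha hw hLa he
  have hne : ∀ c, h c ≠ [] := by
    intro c
    by_cases hc : c = a
    · subst hc; rw [ha]; simp
    · have hc' : c = !a := by revert hc; cases c <;> cases a <;> simp
      rw [hc']; exact he
  -- first letters
  obtain ⟨f, hf⟩ : ∃ f : Bool → Bool, ∀ c, (h c).head? = some (f c) := by
    refine ⟨fun c => (h c).head (hne c), fun c => List.head?_eq_some_head (hne c)⟩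
  obtain ⟨l, hl⟩ : ∃ l : Bool → Bool, ∀ c, (h c).getLast? = some (l c) := by
    refine ⟨fun c => (h c).getLast (hne c), fun c => List.getLast?_eq_some_getLast (hne c)⟩
  by_cases hfe : f false = f true
  · refine cube_of_same_first hfac hH (hlong 37) hne (f false) ?_
    intro c
    rw [hf c]
    cases c
    · rfl
    · rw [hfe]
  by_cases hle : l false = l true
  · refine cube_of_same_last hfac hH (hlong 37) hne (l false) ?_
    intro c
    rw [hl c]
    cases c
    · rfl
    · rw [hle]
  have hfa : f a = a := by
    have := hf a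
    rw [ha] at this
    simpa using this.symm
  have hfc : ∀ c, f c = c := by
    revert hfa hfe
    cases a <;> intro hfe hfa c <;> cases c <;> cases h1 : f false <;> cases h2 : f true <;>
      simp_all
  have hll : ∀ c, l (l c) = c := by
    revert hle
    intro hle c
    cases h1 : l false <;> cases h2 : l true <;> cases c <;> simp_all
  have hhd : ∀ c, (h c).head? = some c := fun c => by rw [hf c, hfc c]
  -- the square and the fourth power
  set g : Bool → List Bool := fun c => (h c).flatMap h with hg
  have hgL : ∀ u, L u → L (u.flatMap g) := by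
    intro u hu
    have := hH _ (hH _ hu)
    rw [List.flatMap_assoc] at this
    exact this
  have hghd : ∀ c, (g c).head? = some c := fun c => head_flatMap hhd (hhd c)
  have hglt : ∀ c, (g c).getLast? = some c := fun c => by
    have := last_flatMap hl (hl c)
    rw [hll c] at this
    exact this
  set K : Bool → List Bool := fun c => (g c).flatMap g with hKdef
  have hKL : ∀ u, L u → L (u.flatMap K) := by
    intro u hu
    have := hgL _ (hgL _ hu)
    rw [List.flatMap_assoc] at this
    exact this
  have hKhd : ∀ c, (K c).head? = some c := fun c => head_flatMap hghd (hghd c)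
  have hKlt : ∀ c, (K c).getLast? = some c := fun c =>
    last_flatMap (l := id) hglt (hglt c)
  have hha : 2 ≤ (h a).length := by
    rw [ha]
    have := List.length_pos_of_ne_nil hw0
    simp only [List.length_cons]
    omega
  rcases Nat.lt_or_ge (h (!a)).length 2 with h1 | h2
  · -- the letter `!a` is fixed
    have h1' : (h (!a)).length = 1 := by
      have := List.length_pos_of_ne_nil he
      omega
    have hfix : h (!a) = [!a] := by
      obtain ⟨b, hb⟩ := List.length_eq_one_iff.1 h1'
      have := hhd (!a)
      rw [hb] at this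
      simp only [List.head?_cons, Option.some.injEq] at this
      rw [hb, this]
    have hgfix : g (!a) = [!a] := by simp [hg, hfix]
    have hKfix : K (!a) = [!a] := by simp [hKdef, hgfix]
    have hla : l a = a := by
      have h3 : l (!a) = !a := by
        have := hl (!a)
        rw [hfix] at this
        simpa using this.symm
      have h6 := hll a
      have h7 := hll (!a)
      by_contra h8
      have h9 : l a = !a := by revert h8; cases l a <;> cases a <;> simp
      rw [h9, h3] at h6
      revert h6
      cases a <;> simp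
    obtain ⟨N, hN, -⟩ := form_of (hhd a) (by rw [hl a, hla]) (n := 0) hha
    have hc1 : 2 ≤ (h a).count a := by
      rw [hN, List.count_cons_self, List.count_append]
      simp
    have hc2 : 4 ≤ (g a).count a := by
      have := flatMap_count_le hc1 (h a)
      simp only [hg]
      omega
    have hc3 : 16 ≤ (K a).count a := by
      have := flatMap_count_le hc2 (g a)
      simp only [hKdef]
      omega
    have hlen : 16 ≤ (K a).length := hc3.trans List.count_le_length
    obtain ⟨N', hN', hl'⟩ := form_of (hKhd a) (hKlt a) (n := 14) hlen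
    exact cube_of_fixed hfac hKL a hLa hKfix N' hN' hl'
  · -- both letters grow
    have hlen1 : ∀ c, 2 ≤ (h c).length := by
      intro c
      by_cases hc : c = a
      · subst hc; exact hha
      · have hc' : c = !a := by revert hc; cases c <;> cases a <;> simp
        rw [hc']; exact h2
    have hlen2 : ∀ c, 4 ≤ (g c).length := by
      intro c
      have := flatMap_length_le hlen1 (h c)
      have := hlen1 c
      simp only [hg]
      omega
    have hlen3 : ∀ c, 16 ≤ (K c).length := by
      intro c
      have := flatMap_length_le hlen2 (g c)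
      have := hlen2 c
      simp only [hKdef]
      omega
    rcases pairs_or_cube hfac (hlong 5) with hcube | hpairs
    · exact hcube
    · exact cube_of_long hfac hKL hpairs fun c => form_of (hKhd c) (hKlt c) (n := 14) (hlen3 c)

end Pool.Agent.K7.H95.PM
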