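import Pool.Agent.K7.H95.PM.Base

/-!
# Cubes in images of words under a morphism known only near the ends of the images of letters
-/

set_option autoImplicit false

namespace Pool.Agent.K7.H95.PM

/-- the word of a symbol: `(false, b)` is the letter `b`, `(true, b)` the middle word `M b` -/
def tht (M : Bool → List Bool) (s : Bool × Bool) : List Bool := cond s.1 (M s.2) [s.2]

/-- a word, as a word of symbols -/
def lt (u : List Bool) : List (Bool × Bool) := u.map fun b => (false, b)

lemma flatMap_lt (M : Bool → List Bool) (u : List Bool) : (lt u).flatMap (tht M) = u := by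
  induction u with
  | nil => rfl
  | cons b u ih =>
    rw [lt, List.map_cons, List.flatMap_cons]
    rw [lt] at ih
    rw [ih]
    rfl

/-- first letter of a symbol, if `f` gives the first letters of the middle words; with the last
letters in place of the first ones, last letter of a symbol -/
def es (f : Bool → Bool) (s : Bool × Bool) : Bool := cond s.1 (f s.2) s.2

/-- equality of symbols -/
def eqs (s t : Bool × Bool) : Bool := cond (Bool.xor s.1 t.1) false (cond (Bool.xor s.2 t.2) false true)

lemma eqs_iff (s t : Bool × Bool) : eqs s t = true ↔ s = t := by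
  rcases s with ⟨_ | _, _ | _⟩ <;> rcases t with ⟨_ | _, _ | _⟩ <;> decide

/-- number of symbols `s` -/
def cs (s : Bool × Bool) : List (Bool × Bool) → ℕ
  | [] => 0
  | t :: B => cond (eqs s t) (cs s B + 1) (cs s B)

lemma cs_eq (s : Bool × Bool) (B : List (Bool × Bool)) : cs s B = B.count s := by
  induction B with
  | nil => rfl
  | cons t B ih =>
    rw [cs, ih, List.count_cons]
    rcases h : eqs s t with _ | _
    · have : ¬ t = s := fun e => by
        have := (eqs_iff s t).2 e.symm
        rw [h] at this; simp at this
      simp [this]
    · have : t = s := ((eqs_iff s t).1 h).symm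
      simp [this]

/-- number of consecutive pairs of symbols with last letter `p` and first letter `q` -/
def js (f l : Bool → Bool) (p q : Bool) : Bool × Bool → List (Bool × Bool) → ℕ
  | _, [] => 0
  | s, t :: B =>
    cond (cond (Bool.xor (es l s) p) false (cond (Bool.xor (es f t) q) false true))
      (js f l p q t B + 1) (js f l p q t B)

lemma js_eq (f l : Bool → Bool) (p q : Bool) (s : Bool × Bool) (B : List (Bool × Bool)) :
    js f l p q s B = jn (fun s s' => if es l s = p ∧ es f s' = q then 1 else 0) (s :: B) := by
  induction B generalizing s with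
  | nil => rfl
  | cons t B ih =>
    rw [js, ih, jn_cons_cons]
    cases h1 : es l s <;> cases h2 : es f t <;> cases p <;> cases q <;> simp <;> omega

/-- comparison of two blocks of symbols -/
def sameB (f l : Bool → Bool) (B B' : List (Bool × Bool)) : Bool :=
  match B, B' with
  | s :: C, s' :: C' =>
    cond (Nat.beq (cs (false, false) B) (cs (false, false) B'))
      (cond (Nat.beq (cs (false, true) B) (cs (false, true) B'))
        (cond (Nat.beq (cs (true, false) B) (cs (true, false) B'))
          (cond (Nat.beq (cs (true, true) B) (cs (true, true) B'))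
            (cond (Nat.beq (js f l false false s C) (js f l false false s' C'))
              (cond (Nat.beq (js f l false true s C) (js f l false true s' C'))
                (cond (Nat.beq (js f l true false s C) (js f l true false s' C'))
                  (Nat.beq (js f l true true s C) (js f l true true s' C')) false)
                false) false) false) false) false) false
  | _, _ => false

lemma cond_false_right {a b : Bool} (h : cond a b false = true) : a = true ∧ b = true := by
  cases a <;> cases b <;> simp_all

lemma sameB_sound (f l : Bool → Bool) (B B' : List (Bool × Bool)) (h : sameB f l B B' = true) :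
    B ≠ [] ∧ B.Perm B' ∧ ∀ p q,
      jn (fun s s' => if es l s = p ∧ es f s' = q then 1 else 0) B
        = jn (fun s s' => if es l s = p ∧ es f s' = q then 1 else 0) B' := by
  rcases B with _ | ⟨s, C⟩
  · simp [sameB] at h
  rcases B' with _ | ⟨s', C'⟩
  · simp [sameB] at h
  unfold sameB at h
  simp only at h
  obtain ⟨h1, h⟩ := cond_false_right h
  obtain ⟨h2, h⟩ := cond_false_right h
  obtain ⟨h3, h⟩ := cond_false_right h
  obtain ⟨h4, h⟩ := cond_false_right h
  obtain ⟨h5, h⟩ := cond_false_right h
  obtain ⟨h6, h⟩ := cond_false_right h
  obtain ⟨h7, h8⟩ := cond_false_right h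
  replace h1 := Nat.eq_of_beq_eq_true h1
  replace h2 := Nat.eq_of_beq_eq_true h2
  replace h3 := Nat.eq_of_beq_eq_true h3
  replace h4 := Nat.eq_of_beq_eq_true h4
  replace h5 := Nat.eq_of_beq_eq_true h5
  replace h6 := Nat.eq_of_beq_eq_true h6
  replace h7 := Nat.eq_of_beq_eq_true h7
  replace h8 := Nat.eq_of_beq_eq_true h8
  rw [cs_eq, cs_eq] at h1 h2 h3 h4
  rw [js_eq, js_eq] at h5 h6 h7 h8
  refine ⟨by simp, ?_, ?_⟩
  · rw [List.perm_iff_count]
    rintro ⟨_ | _, _ | _⟩ <;> assumption
  · intro p q
    cases p <;> cases q <;> assumption

/-- three consecutive blocks of symbols, of length `len`, starting at `p` -/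
def chk (f l : Bool → Bool) (w : List (Bool × Bool)) (p len : ℕ) : Bool :=
  cond (sameB f l ((w.drop p).take len) (((w.drop p).drop len).take len))
    (sameB f l (((w.drop p).drop len).take len) ((((w.drop p).drop len).drop len).take len)) false

theorem sym_cube {L : List Bool → Prop} (hfac : ∀ u v w, L (u ++ v ++ w) → L v)
    {K : Bool → List Bool} (hK : ∀ u, L u → L (u.flatMap K)) (M : Bool → List Bool)
    (f l : Bool → Bool) (hf : ∀ c, (M c).head? = some (f c))
    (hl : ∀ c, (M c).getLast? = some (l c))
    (sym : Bool → List (Bool × Bool)) (hsym : ∀ c, (sym c).flatMap (tht M) = K c)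
    (x : List Bool) (hx : L x) (p len : ℕ) (hc : chk f l (x.flatMap sym) p len = true) :
    HasCube L := by
  have hM : ∀ c, M c ≠ [] := fun c e => by
    have := hf c
    rw [e] at this; simp at this
  have hne : ∀ s, tht M s ≠ [] := by
    rintro ⟨_ | _, b⟩
    · simp [tht]
    · exact hM b
  have hfs : ∀ s, (tht M s).head? = some (es f s) := by
    rintro ⟨_ | _, b⟩
    · rfl
    · exact hf b
  have hls : ∀ s, (tht M s).getLast? = some (es l s) := by
    rintro ⟨_ | _, b⟩
    · rfl
    · exact hl b
  have hw : (x.flatMap sym).flatMap (tht M) = x.flatMap K := by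
    rw [List.flatMap_assoc]
    congr 1
    funext c
    exact hsym c
  set w := x.flatMap sym with hwdef
  have hLw : L (w.flatMap (tht M)) := by rw [hw]; exact hK x hx
  unfold chk at hc
  obtain ⟨c1, c2⟩ := cond_false_right hc
  set W := w.drop p with hW
  set B1 := W.take len with hB1
  set B2 := (W.drop len).take len with hB2
  set B3 := ((W.drop len).drop len).take len with hB3
  set R := ((W.drop len).drop len).drop len with hR
  have d1 : w = w.take p ++ (B1 ++ (B2 ++ (B3 ++ R))) := by
    rw [hR, hB3, List.take_append_drop, hB2, List.take_append_drop, hB1, List.take_append_drop, hW,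
      List.take_append_drop]
  have hLB : L ((B1 ++ B2 ++ B3).flatMap (tht M)) := by
    refine hfac ((w.take p).flatMap (tht M)) _ (R.flatMap (tht M)) ?_
    rw [← List.flatMap_append, ← List.flatMap_append]
    have : w.take p ++ (B1 ++ B2 ++ B3) ++ R = w := by
      conv_rhs => rw [d1]
      simp only [List.append_assoc]
    rw [this]
    exact hLw
  obtain ⟨n1, p1, j1⟩ := sameB_sound f l _ _ c1
  obtain ⟨n2, p2, j2⟩ := sameB_sound f l _ _ c2
  have conv : ∀ (B B' : List (Bool × Bool)), B.Perm B' →
      (∀ p q, jn (fun s s' => if es l s = p ∧ es f s' = q then 1 else 0) B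
        = jn (fun s s' => if es l s = p ∧ es f s' = q then 1 else 0) B') →
      E2 (B.flatMap (tht M)) (B'.flatMap (tht M)) := by
    intro B B' hp hj
    refine flatMap_E2 (tht M) hne hp fun p q => ?_
    have e : (fun s s' : Bool × Bool => if (tht M s).getLast? = some p ∧ (tht M s').head? = some q
        then 1 else 0) = fun s s' => if es l s = p ∧ es f s' = q then (1 : ℕ) else 0 := by
      funext s s'
      rw [hfs, hls]
      simp
    rw [e]
    exact hj p q
  refine ⟨B1.flatMap (tht M), B2.flatMap (tht M), B3.flatMap (tht M), ?_, ?_,
    conv B1 B2 p1 j1, conv B2 B3 p2 j2⟩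
  · rw [← List.flatMap_append, ← List.flatMap_append]
    exact hLB
  · intro e
    obtain ⟨s, C, hs⟩ := List.exists_cons_of_ne_nil n1
    rw [hs, List.flatMap_cons] at e
    exact hne s (List.append_eq_nil_iff.1 e).1

end Pool.Agent.K7.H95.PM
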