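import Pool.Agent.K7.H95.PM.Sym

/-!
# Morphisms fixing the first and the last letter of the images of both letters: both images long
-/

set_option autoImplicit false

namespace Pool.Agent.K7.H95.PM

/-- certificate trees; `leaf k p len` is a cube of symbols, `np c` and `ns c` branch on the next
letter at the start (at the end) of the middle word of `c` -/
inductive TA : Type
  | leaf (k : Bool) (p len : ℕ) : TA
  | np (c : Bool) (t0 t1 : TA) : TA
  | ns (c : Bool) (t0 t1 : TA) : TA

/-- change of a function at one letter -/
def upd {α : Type} (c : Bool) (x : α) (g : Bool → α) : Bool → α :=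
  fun d => cond (Bool.xor c d) (g d) x

@[simp] lemma upd_same {α : Type} (c : Bool) (x : α) (g : Bool → α) : upd c x g c = x := by
  cases c <;> rfl

lemma upd_ne {α : Type} {c d : Bool} (x : α) (g : Bool → α) (h : d ≠ c) : upd c x g d = g d := by
  cases c <;> cases d <;> first | rfl | exact absurd rfl h

/-- the symbols of the image of the letter `c` -/
def symA (A Z : Bool → List Bool) (c : Bool) : List (Bool × Bool) :=
  lt (A c) ++ (true, c) :: lt (Z c)

/-- the word whose image is looked at: `k` is the first of its two kinds of letters -/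
def wordA (A Z : Bool → List Bool) (f l : Bool → Bool) (k : Bool) : List Bool :=
  (l k :: Z k) ++ (A (!k) ++ [f (!k)])

/-- the check of a certificate tree. The image of `c` is `A c ++ f c :: N ++ l c :: Z c` with an
unknown word `N` with at least `n c` letters. -/
def runA : TA → (A : Bool → List Bool) → (f : Bool → Bool) → (Z : Bool → List Bool) →
    (l : Bool → Bool) → (n : Bool → ℕ) → Bool
  | .leaf k p len, A, f, Z, l, _ => chk f l ((wordA A Z f l k).flatMap (symA A Z)) p len
  | .np c t0 t1, A, f, Z, l, n =>
    match n c with
    | 0 => false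
    | m + 1 =>
      cond (runA t0 (upd c (A c ++ [f c]) A) (upd c false f) Z l (upd c m n))
        (runA t1 (upd c (A c ++ [f c]) A) (upd c true f) Z l (upd c m n)) false
  | .ns c t0 t1, A, f, Z, l, n =>
    match n c with
    | 0 => false
    | m + 1 =>
      cond (runA t0 A f (upd c (l c :: Z c) Z) (upd c false l) (upd c m n))
        (runA t1 A f (upd c (l c :: Z c) Z) (upd c true l) (upd c m n)) false

lemma head_last (a b : Bool) (N : List Bool) :
    (a :: (N ++ [b])).head? = some a ∧ (a :: (N ++ [b])).getLast? = some b := by
  refine ⟨rfl, ?_⟩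
  rw [← List.cons_append, List.getLast?_concat]

theorem runA_sound {L : List Bool → Prop} (hfac : ∀ u v w, L (u ++ v ++ w) → L v)
    {K : Bool → List Bool} (hK : ∀ u, L u → L (u.flatMap K)) (hL : ∀ k : Bool, L [k, !k]) (t : TA) :
    ∀ (A : Bool → List Bool) (f : Bool → Bool) (Z : Bool → List Bool) (l : Bool → Bool)
      (n : Bool → ℕ) (N : Bool → List Bool), runA t A f Z l n = true →
      (∀ c, K c = A c ++ (f c :: (N c ++ [l c])) ++ Z c) → (∀ c, n c ≤ (N c).length) →
      HasCube L := by
  induction t with
  | leaf k p len =>
    intro A f Z l n N h hKc _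
    refine sym_cube hfac hK (fun c => f c :: (N c ++ [l c])) f l
      (fun c => (head_last (f c) (l c) (N c)).1) (fun c => (head_last (f c) (l c) (N c)).2)
      (symA A Z) ?_ (wordA A Z f l k) ?_ p len h
    · intro c
      rw [symA, List.flatMap_append, List.flatMap_cons, flatMap_lt, flatMap_lt, hKc c]
      simp [tht]
    · have h2 := hK _ (hL k)
      refine hfac (A k ++ (f k :: N k)) _ (N (!k) ++ [l (!k)] ++ Z (!k)) ?_
      have e : A k ++ (f k :: N k) ++ wordA A Z f l k ++ (N (!k) ++ [l (!k)] ++ Z (!k))
          = [k, !k].flatMap K := by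
        simp [wordA, hKc]
      rw [e]
      exact h2
  | np c t0 t1 ih0 ih1 =>
    intro A f Z l n N h hKc hn
    unfold runA at h
    have hnc := hn c
    rcases hm : n c with _ | m
    · rw [hm] at h; simp at h
    rw [hm] at h hnc
    simp only at h
    obtain ⟨h0, h1⟩ := cond_false_right h
    obtain ⟨v, N', hN⟩ := List.exists_cons_of_length_pos (l := N c) (by omega)
    have hlen : m ≤ N'.length := by rw [hN] at hnc; simpa using hnc
    have hKc' : ∀ v', v' = v → ∀ d, K d = upd c (A c ++ [f c]) A d
        ++ (upd c v' f d :: (upd c N' N d ++ [l d])) ++ Z d := by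
      intro v' hv d
      subst hv
      by_cases hd : d = c
      · subst hd
        rw [upd_same, upd_same, upd_same, hKc, hN]
        simp
      · rw [upd_ne _ _ hd, upd_ne _ _ hd, upd_ne _ _ hd, hKc]
    have hn' : ∀ d, upd c m n d ≤ (upd c N' N d).length := by
      intro d
      by_cases hd : d = c
      · subst hd
        rw [upd_same, upd_same]
        exact hlen
      · rw [upd_ne _ _ hd, upd_ne _ _ hd]
        exact hn d
    rcases v with _ | _
    · exact ih0 _ _ _ _ _ (upd c N' N) h0 (hKc' false rfl) hn'
    · exact ih1 _ _ _ _ _ (upd c N' N) h1 (hKc' true rfl) hn'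
  | ns c t0 t1 ih0 ih1 =>
    intro A f Z l n N h hKc hn
    unfold runA at h
    have hnc := hn c
    rcases hm : n c with _ | m
    · rw [hm] at h; simp at h
    rw [hm] at h hnc
    simp only at h
    obtain ⟨h0, h1⟩ := cond_false_right h
    rcases List.eq_nil_or_concat (N c) with hN | ⟨N', v, hN⟩
    · rw [hN] at hnc; simp at hnc
    rw [List.concat_eq_append] at hN
    have hlen : m ≤ N'.length := by rw [hN] at hnc; simpa using hnc
    have hKc' : ∀ v', v' = v → ∀ d, K d = A d
        ++ (f d :: (upd c N' N d ++ [upd c v' l d])) ++ upd c (l c :: Z c) Z d := by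
      intro v' hv d
      subst hv
      by_cases hd : d = c
      · subst hd
        rw [upd_same, upd_same, upd_same, hKc, hN]
        simp
      · rw [upd_ne _ _ hd, upd_ne _ _ hd, upd_ne _ _ hd, hKc]
    have hn' : ∀ d, upd c m n d ≤ (upd c N' N d).length := by
      intro d
      by_cases hd : d = c
      · subst hd
        rw [upd_same, upd_same]
        exact hlen
      · rw [upd_ne _ _ hd, upd_ne _ _ hd]
        exact hn d
    rcases v with _ | _
    · exact ih0 _ _ _ _ _ (upd c N' N) h0 (hKc' false rfl) hn'
    · exact ih1 _ _ _ _ _ (upd c N' N) h1 (hKc' true rfl) hn'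

/-- the certificate -/
def treeA : TA :=
  (.np false (.np true (.ns false (.ns true (.np false (.leaf false 3 1) (.leaf false 3 1)) (.np
  false (.leaf false 3 1) (.leaf false 3 1))) (.ns true (.np false (.leaf true 10 1) (.leaf true
  10 1)) (.np false (.leaf true 9 1) (.leaf true 9 1)))) (.ns false (.ns true (.np false (.leaf
  false 3 1) (.leaf false 3 1)) (.np false (.leaf false 3 1) (.leaf false 3 1))) (.ns true (.np
  false (.leaf true 10 1) (.leaf true 10 1)) (.np false (.leaf true 9 1) (.leaf true 9 1))))) (.np
  true (.ns false (.ns true (.np false (.np true (.ns false (.leaf false 3 1) (.leaf false 7 1))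
  (.ns false (.leaf false 3 1) (.leaf false 7 1))) (.np true (.ns false (.leaf false 3 1) (.leaf
  false 7 1)) (.ns false (.leaf false 3 1) (.leaf false 7 1)))) (.np false (.np true (.ns false
  (.leaf false 3 1) (.leaf false 7 1)) (.ns false (.leaf false 3 1) (.leaf false 7 1))) (.np true
  (.ns false (.leaf false 3 1) (.leaf false 7 1)) (.ns false (.leaf false 3 1) (.leaf false 7
  1))))) (.ns true (.np false (.np true (.ns false (.ns true (.np false (.np true (.leaf false 24
  6) (.leaf false 4 12)) (.leaf true 6 11)) (.leaf true 0 10)) (.ns true (.np false (.np true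
  (.leaf false 24 6) (.ns false (.ns true (.leaf true 0 7) (.leaf true 2 14)) (.leaf false 0 6)))
  (.leaf true 6 11)) (.leaf true 0 10))) (.ns false (.leaf false 0 9) (.ns true (.np false (.np
  true (.leaf false 6 12) (.ns false (.ns true (.leaf true 0 7) (.np false (.leaf true 45 8) (.np
  true (.ns false (.ns true (.leaf false 32 18) (.np false (.np true (.ns false (.leaf false 0 11)
  (.leaf false 1 19)) (.ns false (.leaf false 0 11) (.leaf false 1 19))) (.np true (.ns false
  (.leaf false 0 11) (.leaf false 1 19)) (.ns false (.leaf false 0 11) (.leaf false 1 19))))) (.ns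
  true (.np false (.np true (.ns false (.leaf false 22 19) (.leaf false 1 31)) (.ns false (.leaf
  false 22 19) (.leaf false 1 31))) (.np true (.ns false (.leaf false 22 19) (.leaf false 1 31))
  (.ns false (.leaf false 22 19) (.leaf false 1 31)))) (.leaf true 32 18))) (.leaf false 48 8))))
  (.leaf false 0 6))) (.leaf true 6 11)) (.leaf true 0 10)))) (.np true (.ns false (.ns true (.np
  false (.np true (.leaf false 24 6) (.leaf false 4 12)) (.leaf true 23 5)) (.np false (.np true
  (.leaf false 24 6) (.ns false (.ns true (.leaf true 0 14) (.np false (.np true (.ns false (.leaf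
  false 0 9) (.ns true (.leaf true 4 18) (.leaf true 0 9))) (.ns false (.leaf false 0 9) (.ns true
  (.np false (.leaf true 75 10) (.leaf true 52 17)) (.leaf true 0 9)))) (.np true (.ns false
  (.leaf false 0 9) (.ns true (.np false (.leaf true 33 17) (.leaf true 11 28)) (.leaf true 0 9)))
  (.ns false (.leaf false 0 9) (.leaf false 4 17))))) (.leaf false 0 13))) (.leaf true 22 5)))
  (.ns true (.np false (.np true (.leaf false 24 6) (.ns false (.ns true (.leaf true 0 7) (.np
  false (.np true (.leaf false 20 14) (.ns false (.ns true (.leaf true 11 16) (.np false (.leaf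
  true 75 10) (.leaf true 49 17))) (.leaf false 10 15))) (.leaf true 19 13))) (.leaf false 0 6)))
  (.leaf true 23 5)) (.np false (.leaf true 3 11) (.leaf true 22 5)))) (.ns false (.leaf false 0
  9) (.ns true (.np false (.np true (.leaf false 6 12) (.ns false (.leaf false 2 13) (.leaf false
  0 6))) (.leaf true 23 5)) (.np false (.leaf true 3 11) (.leaf true 22 5)))))) (.np false (.np
  true (.ns false (.ns true (.leaf true 8 1) (.leaf true 3 1)) (.ns true (.leaf false 3 1) (.leaf
  false 3 1))) (.ns false (.leaf false 0 9) (.ns true (.leaf false 3 1) (.leaf false 3 1)))) (.np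
  true (.ns false (.ns true (.leaf true 8 1) (.leaf true 3 1)) (.ns true (.leaf false 3 1) (.leaf
  false 3 1))) (.ns false (.leaf false 0 9) (.ns true (.leaf false 3 1) (.leaf false 3 1)))))))
  (.ns false (.ns true (.np false (.np true (.leaf false 11 1) (.leaf false 11 1)) (.np true
  (.leaf false 11 1) (.leaf false 11 1))) (.np false (.np true (.leaf false 11 1) (.leaf false 11
  1)) (.np true (.leaf false 11 1) (.leaf false 11 1)))) (.ns true (.np false (.np true (.leaf
  false 11 1) (.leaf false 11 1)) (.np true (.leaf false 11 1) (.leaf false 11 1))) (.np false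
  (.np true (.leaf false 11 1) (.leaf false 11 1)) (.np true (.leaf false 11 1) (.leaf false 11
  1)))))))

theorem treeA_run : runA treeA (fun _ => []) id (fun _ => []) id (fun _ => 14) = true := by
  decide +kernel

/-- a language closed under taking factors and under a morphism whose images of letters are long
and begin and end with the letter has a cube -/
theorem cube_of_long {L : List Bool → Prop} (hfac : ∀ u v w, L (u ++ v ++ w) → L v)
    {K : Bool → List Bool} (hK : ∀ u, L u → L (u.flatMap K)) (hL : ∀ k : Bool, L [k, !k])
    (hform : ∀ c, ∃ N, K c = c :: (N ++ [c]) ∧ 14 ≤ N.length) : HasCube L := by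
  choose N hN1 hN2 using hform
  exact runA_sound hfac hK hL treeA _ _ _ _ _ N treeA_run (by intro c; simp [hN1 c]) hN2

end Pool.Agent.K7.H95.PM
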