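import Pool.Agent.K7.H95.PM.TreeA

/-!
# Morphisms that fix one letter
-/

set_option autoImplicit false

namespace Pool.Agent.K7.H95.PM

/-- certificate trees; `leaf k p len` is a cube of symbols, `np` and `ns` branch on the next
letter at the start (at the end) of the middle word -/
inductive TB : Type
  | leaf (k : Bool) (p len : ℕ) : TB
  | np (t0 t1 : TB) : TB
  | ns (t0 t1 : TB) : TB

/-- the symbols of the image of the letter `c`, if the letter `!a` is fixed -/
def symB (a : Bool) (A Z : List Bool) (c : Bool) : List (Bool × Bool) :=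
  cond (Bool.xor a c) [(false, c)] (lt A ++ (true, c) :: lt Z)

/-- the word whose image is looked at -/
def wordB (A Z : List Bool) (f l : Bool) (k : Bool) : List Bool :=
  cond k (l :: Z) (A ++ [f])

/-- the check of a certificate tree. The image of `a` is `A ++ f :: N ++ l :: Z` with an
unknown word `N` with at least `n` letters. -/
def runB (a : Bool) : TB → (A : List Bool) → (f : Bool) → (Z : List Bool) →
    (l : Bool) → (n : ℕ) → Bool
  | .leaf k p len, A, f, Z, l, _ =>
    chk (fun _ => f) (fun _ => l) ((wordB A Z f l k).flatMap (symB a A Z)) p len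
  | .np t0 t1, A, f, Z, l, n =>
    match n with
    | 0 => false
    | m + 1 => cond (runB a t0 (A ++ [f]) false Z l m) (runB a t1 (A ++ [f]) true Z l m) false
  | .ns t0 t1, A, f, Z, l, n =>
    match n with
    | 0 => false
    | m + 1 => cond (runB a t0 A f (l :: Z) false m) (runB a t1 A f (l :: Z) true m) false

theorem runB_sound {L : List Bool → Prop} (hfac : ∀ u v w, L (u ++ v ++ w) → L v)
    {K : Bool → List Bool} (hK : ∀ u, L u → L (u.flatMap K)) (a : Bool)
    (ha : K (!a) = [!a]) (hL : L [a]) (t : TB) :
    ∀ (A : List Bool) (f : Bool) (Z : List Bool) (l : Bool)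
      (n : ℕ) (N : List Bool), runB a t A f Z l n = true →
      (K a = A ++ (f :: (N ++ [l])) ++ Z) → n ≤ N.length → HasCube L := by
  induction t with
  | leaf k p len =>
    intro A f Z l n N h hKc _
    refine sym_cube hfac hK (fun c => f :: (N ++ [l])) (fun _ => f) (fun _ => l)
      (fun c => (head_last f l N).1) (fun c => (head_last f l N).2)
      (symB a A Z) ?_ (wordB A Z f l k) ?_ p len h
    · intro c
      by_cases hc : c = a
      · subst hc
        rw [symB, Bool.xor_self, cond_false, List.flatMap_append, List.flatMap_cons, flatMap_lt,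
          flatMap_lt, hKc]
        simp [tht]
      · have hc' : c = !a := by revert hc; cases c <;> cases a <;> simp
        subst hc'
        rw [symB, ha]
        cases a <;> rfl
    · have h2 := hK _ hL
      have e : [a].flatMap K = K a := by simp
      rw [e, hKc] at h2
      rcases k with _ | _
      · refine hfac [] _ (N ++ [l] ++ Z) ?_
        simpa [wordB] using h2
      · refine hfac (A ++ f :: N) _ [] ?_
        simpa [wordB] using h2
  | np t0 t1 ih0 ih1 =>
    intro A f Z l n N h hKc hn
    unfold runB at h
    rcases n with _ | m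
    · simp at h
    simp only at h
    obtain ⟨h0, h1⟩ := cond_false_right h
    obtain ⟨v, N', hN⟩ := List.exists_cons_of_length_pos (l := N) (by omega)
    have hlen : m ≤ N'.length := by rw [hN] at hn; simpa using hn
    rcases v with _ | _
    · exact ih0 _ _ _ _ _ N' h0 (by rw [hKc, hN]; simp) hlen
    · exact ih1 _ _ _ _ _ N' h1 (by rw [hKc, hN]; simp) hlen
  | ns t0 t1 ih0 ih1 =>
    intro A f Z l n N h hKc hn
    unfold runB at h
    rcases n with _ | m
    · simp at h
    simp only at h
    obtain ⟨h0, h1⟩ := cond_false_right h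
    rcases List.eq_nil_or_concat N with hN | ⟨N', v, hN⟩
    · rw [hN] at hn; simp at hn
    rw [List.concat_eq_append] at hN
    have hlen : m ≤ N'.length := by rw [hN] at hn; simpa using hn
    rcases v with _ | _
    · exact ih0 _ _ _ _ _ N' h0 (by rw [hKc, hN]; simp) hlen
    · exact ih1 _ _ _ _ _ N' h1 (by rw [hKc, hN]; simp) hlen

/-- the certificate for the fixed letter `true` -/
def treeB0 : TB :=
  (.np (.ns (.np (.leaf false 3 1) (.leaf false 3 1)) (.np (.leaf false 3 1) (.leaf false 3 1)))
  (.ns (.np (.ns (.leaf true 3 1) (.leaf true 4 1)) (.ns (.leaf true 3 1) (.leaf true 4 1))) (.np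
  (.ns (.np (.leaf false 4 2) (.leaf false 4 2)) (.np (.leaf false 4 2) (.leaf false 4 2))) (.ns
  (.np (.ns (.leaf true 11 2) (.leaf true 5 2)) (.leaf false 6 1)) (.np (.ns (.np (.leaf false 5
  3) (.leaf false 5 3)) (.leaf true 0 1)) (.leaf false 6 1))))))

/-- the certificate for the fixed letter `false` -/
def treeB1 : TB :=
  (.np (.ns (.np (.ns (.np (.leaf false 6 1) (.ns (.leaf true 0 1) (.np (.leaf false 5 3) (.leaf
  false 5 3)))) (.np (.leaf false 6 1) (.ns (.leaf true 5 2) (.leaf true 11 2)))) (.ns (.np (.leaf
  false 4 2) (.leaf false 4 2)) (.np (.leaf false 4 2) (.leaf false 4 2)))) (.np (.ns (.leaf true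
  4 1) (.leaf true 3 1)) (.ns (.leaf true 4 1) (.leaf true 3 1)))) (.ns (.np (.leaf false 3 1)
  (.leaf false 3 1)) (.np (.leaf false 3 1) (.leaf false 3 1))))

theorem treeB0_run : runB false treeB0 [] false [] false 14 = true := by
  decide +kernel

theorem treeB1_run : runB true treeB1 [] true [] true 14 = true := by
  decide +kernel

/-- a language closed under taking factors and under a morphism that fixes one letter and for which
the image of the other letter is long and begins and ends with that letter has a cube -/
theorem cube_of_fixed {L : List Bool → Prop} (hfac : ∀ u v w, L (u ++ v ++ w) → L v)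
    {K : Bool → List Bool} (hK : ∀ u, L u → L (u.flatMap K)) (a : Bool) (hL : L [a])
    (ha : K (!a) = [!a]) (N : List Bool) (hN : K a = a :: (N ++ [a])) (hl : 14 ≤ N.length) :
    HasCube L := by
  rcases a with _ | _
  · exact runB_sound hfac hK false ha hL treeB0 _ _ _ _ _ N treeB0_run (by simp [hN]) hl
  · exact runB_sound hfac hK true ha hL treeB1 _ _ _ _ _ N treeB1_run (by simp [hN]) hl

end Pool.Agent.K7.H95.PM
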